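import Mathlib

set_option autoImplicit false
set_option linter.all false

open FirstOrder FirstOrder.Language FirstOrder.Ring

namespace Pool.Agent.Helper180.VR

section
variable {L : Type*} [Field L] [CompatibleRing L]

/-- ring language with parameters -/
abbrev LP (L : Type*) [Field L] [CompatibleRing L] : Language :=
  Language.ring[[(Set.univ : Set L)]]

/-- term functions in countably many variables, parameters allowed -/
def TD (f : (ℕ → L) → L) : Prop := ∃ t : (LP L).Term ℕ, ∀ v, t.realize v = f v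

/-- definable predicates in countably many variables, parameters allowed -/
def DS (P : (ℕ → L) → Prop) : Prop := ∃ φ : (LP L).Formula ℕ, ∀ v, φ.Realize v ↔ P v

theorem TD.var (n : ℕ) : TD (fun v : ℕ → L => v n) := ⟨Term.var n, fun v => rfl⟩

theorem TD.const (a : L) : TD (fun _ : ℕ → L => a) :=
  ⟨(Language.ring.con (⟨a, Set.mem_univ a⟩ : (Set.univ : Set L))).term, fun v => by
    rw [Term.realize_con]⟩

theorem TD.add {f g : (ℕ → L) → L} (hf : TD f) (hg : TD g) : TD (fun v => f v + g v) := by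
  obtain ⟨s, hs⟩ := hf
  obtain ⟨t, ht⟩ := hg
  refine ⟨Term.func (Sum.inl addFunc) ![s, t], fun v => ?_⟩
  rw [Term.realize_func, withConstants_funMap_sumInl, CompatibleRing.funMap_add]
  simp [hs, ht]

theorem TD.mul {f g : (ℕ → L) → L} (hf : TD f) (hg : TD g) : TD (fun v => f v * g v) := by
  obtain ⟨s, hs⟩ := hf
  obtain ⟨t, ht⟩ := hg
  refine ⟨Term.func (Sum.inl mulFunc) ![s, t], fun v => ?_⟩
  rw [Term.realize_func, withConstants_funMap_sumInl, CompatibleRing.funMap_mul]
  simp [hs, ht]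

theorem TD.neg {f : (ℕ → L) → L} (hf : TD f) : TD (fun v => - f v) := by
  obtain ⟨s, hs⟩ := hf
  refine ⟨Term.func (Sum.inl negFunc) ![s], fun v => ?_⟩
  rw [Term.realize_func, withConstants_funMap_sumInl, CompatibleRing.funMap_neg]
  simp [hs]

theorem TD.sub {f g : (ℕ → L) → L} (hf : TD f) (hg : TD g) : TD (fun v => f v - g v) := by
  have := hf.add hg.neg
  simpa [sub_eq_add_neg] using this

theorem TD.pow {f : (ℕ → L) → L} (hf : TD f) (n : ℕ) : TD (fun v => f v ^ n) := by
  induction n with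
  | zero => simpa using TD.const (1 : L)
  | succ n ih =>
    have := ih.mul hf
    simpa [pow_succ] using this

theorem TD.sh {f : (ℕ → L) → L} (hf : TD f) : TD (fun v => f (fun n => v (n + 1))) := by
  obtain ⟨s, hs⟩ := hf
  refine ⟨s.relabel (fun n => n + 1), fun v => ?_⟩
  rw [Term.realize_relabel, hs]
  rfl

theorem DS.eq {f g : (ℕ → L) → L} (hf : TD f) (hg : TD g) : DS (fun v => f v = g v) := by
  obtain ⟨s, hs⟩ := hf
  obtain ⟨t, ht⟩ := hg
  refine ⟨s.equal t, fun v => ?_⟩
  rw [Formula.realize_equal, hs, ht]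

theorem DS.not {P : (ℕ → L) → Prop} (hP : DS P) : DS (fun v => ¬ P v) := by
  obtain ⟨φ, h⟩ := hP
  exact ⟨φ.not, fun v => by rw [Formula.realize_not, h]⟩

theorem DS.and {P Q : (ℕ → L) → Prop} (hP : DS P) (hQ : DS Q) : DS (fun v => P v ∧ Q v) := by
  obtain ⟨φ, h⟩ := hP
  obtain ⟨ψ, h'⟩ := hQ
  exact ⟨φ ⊓ ψ, fun v => by rw [Formula.realize_inf, h, h']⟩

theorem DS.imp {P Q : (ℕ → L) → Prop} (hP : DS P) (hQ : DS Q) : DS (fun v => P v → Q v) := by
  obtain ⟨φ, h⟩ := hP
  obtain ⟨ψ, h'⟩ := hQ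
  exact ⟨φ.imp ψ, fun v => by rw [Formula.realize_imp, h, h']⟩

theorem DS.all {P : L → (ℕ → L) → Prop}
    (hP : DS (fun v => P (v 0) (fun n => v (n + 1)))) : DS (fun v => ∀ a, P a v) := by
  obtain ⟨φ, h⟩ := hP
  let g : ℕ → ℕ ⊕ Fin 1 := fun n => Nat.casesOn n (Sum.inr 0) (fun m => Sum.inl m)
  let ψ : (LP L).BoundedFormula ℕ 1 := BoundedFormula.relabel g φ
  refine ⟨ψ.all, fun v => ?_⟩
  have key : ∀ a, ψ.Realize v (Fin.snoc default a) ↔ P a v := by
    intro a
    have h1 := BoundedFormula.realize_relabel (φ := φ) (g := g) (v := v)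
      (xs := (Fin.snoc default a : Fin 1 → L))
    refine h1.trans ?_
    have h2 := h (fun n => Nat.casesOn n a (fun m => v m))
    have e : (Sum.elim v ((Fin.snoc default a : Fin 1 → L) ∘ Fin.castAdd 0) ∘ g) =
        (fun n => Nat.casesOn n a (fun m => v m)) := by
      funext n
      cases n with
      | zero => simp [g, Fin.snoc]
      | succ m => simp [g]
    rw [e]
    have e2 : ((Fin.snoc default a : Fin 1 → L) ∘ Fin.natAdd 1 : Fin 0 → L) = default :=
      Subsingleton.elim _ _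
    rw [e2]
    exact h2
  constructor
  · intro hv a
    exact (key a).1 (hv a)
  · intro hv a
    exact (key a).2 (hv a)

theorem DS.congr {P Q : (ℕ → L) → Prop} (hP : DS P) (h : ∀ v, P v ↔ Q v) : DS Q := by
  obtain ⟨φ, h'⟩ := hP
  exact ⟨φ, fun v => (h' v).trans (h v)⟩

theorem DS.ex {P : L → (ℕ → L) → Prop}
    (hP : DS (fun v => P (v 0) (fun n => v (n + 1)))) : DS (fun v => ∃ a, P a v) := by
  have h1 := (DS.all (P := fun a v => ¬ P a v) hP.not).not
  exact h1.congr (fun v => by simp)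

theorem DS.definable {P : L → Prop} (hP : DS (fun v : ℕ → L => P (v 0))) :
    Set.Definable (Set.univ : Set L) Language.ring {x : Fin 1 → L | P (x 0)} := by
  obtain ⟨φ, h⟩ := hP
  refine ⟨φ.relabel (fun _ => (0 : Fin 1)), ?_⟩
  ext x
  simp only [Set.mem_setOf_eq]
  rw [Formula.realize_relabel, h]
  rfl

end

end Pool.Agent.Helper180.VR
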