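import Mathlib

set_option autoImplicit false
set_option linter.all false

open Polynomial

namespace Pool.Agent.Helper180.VR

variable {K : Type*} [Field K] [IsAlgClosed K] [CharP K 3]

/-- Artin-Schreier image. -/
def AS (z : RatFunc K) : Prop := ∃ u : RatFunc K, z = u ^ 3 - u

theorem charF : CharP (RatFunc K) 3 :=
  charP_of_injective_algebraMap (algebraMap K (RatFunc K)).injective 3

theorem add3 (x y : RatFunc K) : (x + y) ^ 3 = x ^ 3 + y ^ 3 := by
  have : CharP (RatFunc K) 3 := charF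
  have : Fact (Nat.Prime 3) := ⟨Nat.prime_three⟩
  exact add_pow_char x y 3

theorem sub3 (x y : RatFunc K) : (x - y) ^ 3 = x ^ 3 - y ^ 3 := by
  have : CharP (RatFunc K) 3 := charF
  have : Fact (Nat.Prime 3) := ⟨Nat.prime_three⟩
  exact sub_pow_char x y

theorem add3k (k : ℕ) (x y : RatFunc K) : (x + y) ^ 3 ^ k = x ^ 3 ^ k + y ^ 3 ^ k := by
  have : CharP (RatFunc K) 3 := charF
  have : Fact (Nat.Prime 3) := ⟨Nat.prime_three⟩
  exact add_pow_char_pow x y 3 k

theorem sub3k (k : ℕ) (x y : RatFunc K) : (x - y) ^ 3 ^ k = x ^ 3 ^ k - y ^ 3 ^ k := by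
  have : CharP (RatFunc K) 3 := charF
  have : Fact (Nat.Prime 3) := ⟨Nat.prime_three⟩
  exact sub_pow_char_pow x y k

theorem three0 : (3 : RatFunc K) = 0 := by
  have : CharP (RatFunc K) 3 := charF
  exact_mod_cast CharP.cast_eq_zero (RatFunc K) 3

theorem three0P : (3 : K[X]) = 0 := by
  exact_mod_cast CharP.cast_eq_zero (K[X]) 3

theorem AS.add {x y : RatFunc K} (hx : AS x) (hy : AS y) : AS (x + y) := by
  obtain ⟨u, rfl⟩ := hx
  obtain ⟨v, rfl⟩ := hy
  exact ⟨u + v, by rw [add3]; ring⟩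

theorem AS.sub {x y : RatFunc K} (hx : AS x) (hy : AS y) : AS (x - y) := by
  obtain ⟨u, rfl⟩ := hx
  obtain ⟨v, rfl⟩ := hy
  exact ⟨u - v, by rw [sub3]; ring⟩

theorem AS.self (x : RatFunc K) : AS (x ^ 3 - x) := ⟨x, rfl⟩

theorem AS.powk (k : ℕ) (x : RatFunc K) : AS (x ^ 3 ^ k - x) := by
  induction k with
  | zero => exact ⟨0, by simp⟩
  | succ k ih =>
    have h : x ^ 3 ^ (k + 1) - x = ((x ^ 3 ^ k) ^ 3 - x ^ 3 ^ k) + (x ^ 3 ^ k - x) := by
      rw [pow_succ, pow_mul]; ring
    rw [h]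
    exact (AS.self _).add ih

/-- embedding of polynomials -/
noncomputable abbrev ι (f : K[X]) : RatFunc K := algebraMap K[X] (RatFunc K) f

theorem ι_inj {f g : K[X]} (h : ι f = ι g) : f = g := RatFunc.algebraMap_injective K h

theorem ι_ne {f : K[X]} (h : f ≠ 0) : ι f ≠ 0 := RatFunc.algebraMap_ne_zero h

/-- coprime fractions are unique up to a constant -/
theorem rep_unique {f g f' g' : K[X]} (h : IsCoprime f g) (h' : IsCoprime f' g') (hg : g ≠ 0)
    (hg' : g' ≠ 0) (e : ι f / ι g = ι f' / ι g') :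
    ∃ c : K, c ≠ 0 ∧ f' = C c * f ∧ g' = C c * g := by
  have e1 : f * g' = f' * g := by
    apply ι_inj
    rw [div_eq_div_iff (ι_ne hg) (ι_ne hg')] at e
    simpa [ι, map_mul] using e
  have d1 : g ∣ g' := by
    have : g ∣ f * g' := by rw [e1]; exact dvd_mul_left _ _
    exact (h.symm).dvd_of_dvd_mul_left this
  have d2 : g' ∣ g := by
    have : g' ∣ f' * g := by rw [← e1]; exact dvd_mul_left _ _
    exact (h'.symm).dvd_of_dvd_mul_left this
  obtain ⟨u, hu⟩ := associated_of_dvd_dvd d1 d2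
  obtain ⟨c, hc, hcu⟩ := Polynomial.isUnit_iff.1 u.isUnit
  refine ⟨c, hc.ne_zero, ?_, ?_⟩
  · have : f * (g * C c) = f' * g := by rw [hcu, hu, e1]
    have h2 : (C c * f) * g = f' * g := by rw [← this]; ring
    exact (mul_right_cancel₀ hg h2).symm
  · rw [hcu, mul_comm]; exact hu.symm

theorem exists_cbrt (c : K) : ∃ d : K, d ^ 3 = c := by
  obtain ⟨d, hd⟩ := IsAlgClosed.exists_pow_nat_eq c (n := 3) (by norm_num)
  exact ⟨d, hd⟩

/-- constants -/
noncomputable abbrev κ (c : K) : RatFunc K := ι (C c)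

theorem κ_mul (c d : K) : κ (c * d) = κ c * κ d := by simp [κ, ι]
theorem κ_add (c d : K) : κ (c + d) = κ c + κ d := by simp [κ, ι]
theorem κ_sub (c d : K) : κ (c - d) = κ c - κ d := by simp [κ, ι]
theorem κ_pow (c : K) (n : ℕ) : κ (c ^ n) = κ c ^ n := by simp [κ, ι]
theorem κ_one : κ (1 : K) = 1 := by simp [κ, ι]
theorem κ_zero : κ (0 : K) = 0 := by simp [κ, ι]
theorem κ_inj {c d : K} (h : κ c = κ d) : c = d := C_injective (ι_inj h)

theorem as_rep (a b : K[X]) (hb : b ≠ 0) :
    (ι a / ι b) ^ 3 - ι a / ι b = ι (a ^ 3 - a * b ^ 2) / ι (b ^ 3) := by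
  have h := ι_ne hb
  simp only [ι, map_sub, map_mul, map_pow] at *
  field_simp

theorem as_coprime {a b : K[X]} (h : IsCoprime a b) : IsCoprime (a ^ 3 - a * b ^ 2) (b ^ 3) := by
  apply IsCoprime.pow_right
  have h1 : IsCoprime (a ^ 3) b := h.pow_left
  have h2 := h1.add_mul_left_left (-(a * b))
  have e : a ^ 3 + b * -(a * b) = a ^ 3 - a * b ^ 2 := by ring
  rwa [e] at h2

theorem exists_rep (x : RatFunc K) : ∃ f g : K[X], IsCoprime f g ∧ g ≠ 0 ∧ x = ι f / ι g :=
  ⟨x.num, x.denom, RatFunc.isCoprime_num_denom x, RatFunc.denom_ne_zero x,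
    (RatFunc.num_div_denom x).symm⟩

theorem AS_descent {u : RatFunc K} (h : ∀ c : K, AS (κ c * (u ^ 3 - u))) (γ : K) :
    AS (κ γ * u) := by
  obtain ⟨e, he⟩ : ∃ e : K, e - e ^ 3 = γ := by
    obtain ⟨e, he⟩ := IsAlgClosed.exists_root (X ^ 3 - X + C γ : K[X]) (by
      have : (X ^ 3 - X + C γ : K[X]).degree = 3 := by compute_degree!
      rw [this]; norm_num)
    refine ⟨e, ?_⟩
    simp [IsRoot] at he
    linear_combination (-1 : K) * he
  have h1 := h (e ^ 3)
  have h2 : κ γ * u = κ (e ^ 3) * (u ^ 3 - u) - ((κ e * u) ^ 3 - κ e * u) := by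
    rw [← he, κ_sub, κ_pow]; ring
  rw [h2]
  exact h1.sub (AS.self _)

theorem const_aux (N : ℕ) : ∀ f g : K[X], IsCoprime f g → g ≠ 0 → f.natDegree + g.natDegree ≤ N →
    (∀ c : K, AS (κ c * (ι f / ι g))) → ∃ c : K, ι f / ι g = κ c := by
  induction N using Nat.strong_induction_on with
  | _ N ih =>
    intro f g hfg hg hN h
    have h1 := h 1
    rw [κ_one, one_mul] at h1
    obtain ⟨u, hu⟩ := h1
    rw [hu] at h
    have hu' := AS_descent h
    obtain ⟨a, b, hab, hb, rfl⟩ := exists_rep u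
    rw [as_rep a b hb] at hu
    obtain ⟨e, he, e1, e2⟩ := rep_unique hfg (as_coprime hab) hg (pow_ne_zero 3 hb) hu
    have hb3 : g.natDegree = 3 * b.natDegree := by
      have := congrArg natDegree e2
      rw [natDegree_C_mul he, natDegree_pow] at this
      omega
    have hf3 : b.natDegree < a.natDegree → f.natDegree = 3 * a.natDegree := by
      intro hlt
      have := congrArg natDegree e1
      rw [natDegree_C_mul he, natDegree_sub_eq_left_of_natDegree_lt, natDegree_pow] at this
      · omega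
      · rw [natDegree_pow]
        refine lt_of_le_of_lt natDegree_mul_le ?_
        rw [natDegree_pow]; omega
    have hconst : ∀ c : K, ι a / ι b = κ c → ∃ c : K, ι f / ι g = κ c := by
      intro c hc
      refine ⟨c ^ 3 - c, ?_⟩
      rw [hu, ← as_rep a b hb, hc, κ_sub, κ_pow]
    by_cases hlt : a.natDegree + b.natDegree < N
    · obtain ⟨c, hc⟩ := ih _ hlt a b hab hb le_rfl hu'
      exact hconst c hc
    · have ha0 : a.natDegree = 0 := by
        by_cases hba : b.natDegree < a.natDegree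
        · have := hf3 hba; omega
        · omega
      have hb0 : b.natDegree = 0 := by
        by_cases hba : b.natDegree < a.natDegree
        · have := hf3 hba; omega
        · omega
      obtain ⟨α, hα⟩ := natDegree_eq_zero.1 ha0
      obtain ⟨β, hβ⟩ := natDegree_eq_zero.1 hb0
      apply hconst (α / β)
      have hβ0 : β ≠ 0 := by
        intro h0; apply hb; rw [← hβ, h0, C_0]
      rw [← hα, ← hβ]
      have : κ α = κ (α / β) * κ β := by rw [← κ_mul, div_mul_cancel₀ α hβ0]
      rw [div_eq_iff (ι_ne (by rw [hβ]; exact hb))]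
      exact this

theorem const_of_AS (z : RatFunc K) (h : ∀ c : K, AS (κ c * z)) : ∃ c : K, z = κ c := by
  obtain ⟨f, g, hfg, hg, rfl⟩ := exists_rep z
  exact const_aux _ f g hfg hg le_rfl h

theorem AS_poly {f g : K[X]} (hfg : IsCoprime f g) (hg : g ≠ 0) (h : AS (ι f / ι g)) :
    ∃ a B : K[X], g = B ^ 3 ∧ f = a ^ 3 - a * B ^ 2 := by
  obtain ⟨u, hu⟩ := h
  obtain ⟨a, b, hab, hb, rfl⟩ := exists_rep u
  rw [as_rep a b hb] at hu
  obtain ⟨e, he, e1, e2⟩ := rep_unique hfg (as_coprime hab) hg (pow_ne_zero 3 hb) hu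
  obtain ⟨d, hd⟩ := exists_cbrt (e⁻¹ : K)
  have hde : C (d ^ 3) * C e = (1 : K[X]) := by rw [← C_mul, hd, inv_mul_cancel₀ he, C_1]
  refine ⟨C d * a, C d * b, ?_, ?_⟩
  · calc g = (C (d ^ 3) * C e) * g := by rw [hde, one_mul]
      _ = C (d ^ 3) * (C e * g) := by ring
      _ = C (d ^ 3) * b ^ 3 := by rw [← e2]
      _ = _ := by rw [C_pow]; ring
  · calc f = (C (d ^ 3) * C e) * f := by rw [hde, one_mul]
      _ = C (d ^ 3) * (C e * f) := by ring
      _ = C (d ^ 3) * (a ^ 3 - a * b ^ 2) := by rw [← e1]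
      _ = _ := by rw [C_pow]; ring

theorem natDegree_as {a B : K[X]} (hB : B.natDegree = 0) :
    (a ^ 3 - a * B ^ 2).natDegree = 3 * a.natDegree := by
  by_cases ha : a.natDegree = 0
  · rw [ha]
    have : (a ^ 3 - a * B ^ 2).natDegree ≤ 0 := by
      refine (natDegree_sub_le _ _).trans ?_
      have h1 : (a ^ 3).natDegree = 0 := by rw [natDegree_pow]; omega
      have h2 : (a * B ^ 2).natDegree ≤ 0 := by
        refine natDegree_mul_le.trans ?_
        rw [natDegree_pow]; omega
      omega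
    omega
  · rw [natDegree_sub_eq_left_of_natDegree_lt, natDegree_pow]
    rw [natDegree_pow]
    refine lt_of_le_of_lt natDegree_mul_le ?_
    rw [natDegree_pow]; omega

theorem T_aux (c : K) (N : ℕ) : ∀ f g : K[X], IsCoprime f g → g ≠ 0 → f ≠ 0 →
    f.natDegree + g.natDegree ≤ N →
    AS (ι f / ι g - ι (X - C c)) → AS ((ι f / ι g)⁻¹ - (ι (X - C c))⁻¹) →
    ∃ s : ℕ, ι f / ι g = ι (X - C c) ^ 3 ^ s := by
  induction N using Nat.strong_induction_on with
  | _ N ih =>
    intro f g hfg hg hf hN h1 h2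
    set θ : K[X] := X - C c with hθdef
    have hθp : Prime θ := prime_X_sub_C c
    have hθ0 : θ ≠ 0 := hθp.ne_zero
    have hθd : θ.natDegree = 1 := natDegree_X_sub_C c
    have ig := ι_ne hg
    have if0 := ι_ne hf
    have iθ := ι_ne hθ0
    have r1 : ι f / ι g - ι θ = ι (f - θ * g) / ι g := by
      simp only [ι, map_sub, map_mul] at *
      field_simp
    have c1 : IsCoprime (f - θ * g) g := by
      have := hfg.add_mul_right_left (-θ)
      have e : f + -θ * g = f - θ * g := by ring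
      rwa [e] at this
    have h1' := h1
    rw [r1] at h1'
    obtain ⟨a, B, hB, ha⟩ := AS_poly c1 hg h1'
    have hB0 : B ≠ 0 := by
      rintro rfl; apply hg; rw [hB]; ring
    -- the cube case
    have cube : ∀ D : K[X], f = D ^ 3 → ∃ s : ℕ, ι f / ι g = ι θ ^ 3 ^ s := by
      intro D hD
      have hD0 : D ≠ 0 := by
        rintro rfl; apply hf; rw [hD]; ring
      have hDB : IsCoprime D B := by
        rw [hD, hB] at hfg
        exact (IsCoprime.pow_iff (by norm_num) (by norm_num)).1 hfg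
      have hx : ι f / ι g = (ι D / ι B) ^ 3 := by
        rw [hD, hB]; simp only [ι, map_pow]; rw [div_pow]
      have hnf : f.natDegree = 3 * D.natDegree := by rw [hD, natDegree_pow]
      have hng : g.natDegree = 3 * B.natDegree := by rw [hB, natDegree_pow]
      by_cases hlt : D.natDegree + B.natDegree < N
      · have k1 : AS (ι D / ι B - ι θ) := by
          have e : ι D / ι B - ι θ = (ι f / ι g - ι θ) - ((ι D / ι B) ^ 3 - ι D / ι B) := by
            rw [hx]; ring
          rw [e]; exact h1.sub (AS.self _)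
        have k2 : AS ((ι D / ι B)⁻¹ - (ι θ)⁻¹) := by
          have e : (ι D / ι B)⁻¹ - (ι θ)⁻¹ = ((ι f / ι g)⁻¹ - (ι θ)⁻¹) -
              (((ι D / ι B)⁻¹) ^ 3 - (ι D / ι B)⁻¹) := by
            rw [hx, inv_pow]; ring
          rw [e]; exact h2.sub (AS.self _)
        obtain ⟨s, hs⟩ := ih _ hlt D B hDB hB0 hD0 le_rfl k1 k2
        refine ⟨s + 1, ?_⟩
        rw [hx, hs, ← pow_mul, ← pow_succ]
      · exfalso
        have d0 : D.natDegree = 0 := by omega
        have b0 : B.natDegree = 0 := by omega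
        have e1 := natDegree_as (a := a) b0
        rw [← ha] at e1
        have e2 : (f - θ * g).natDegree = 1 := by
          rw [natDegree_sub_eq_right_of_natDegree_lt]
          · rw [natDegree_mul hθ0 hg, hθd]; omega
          · rw [natDegree_mul hθ0 hg, hθd]; omega
        omega
    by_cases hdiv : θ ∣ f
    · obtain ⟨f₁, hf₁⟩ := hdiv
      have hf₁0 : f₁ ≠ 0 := by
        rintro rfl; apply hf; rw [hf₁, mul_zero]
      have if1 := ι_ne hf₁0
      have hcop : IsCoprime f₁ g := by
        rw [hf₁] at hfg; exact hfg.of_mul_left_right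
      have hθg : IsCoprime θ g := by
        rw [hf₁] at hfg; exact hfg.of_mul_left_left
      have c2 : IsCoprime (g - f₁) f₁ := by
        have := hcop.symm.add_mul_right_left (-1)
        have e : g + -1 * f₁ = g - f₁ := by ring
        rwa [e] at this
      by_cases hd2 : θ ∣ g - f₁
      · -- f = θ D^3
        obtain ⟨m, hm⟩ := hd2
        have r2 : (ι f / ι g)⁻¹ - (ι θ)⁻¹ = ι m / ι f₁ := by
          have hm' : ι g - ι f₁ = ι θ * ι m := by
            have := congrArg ι hm
            simpa [ι, map_sub, map_mul] using this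
          have hf' : ι f = ι θ * ι f₁ := by rw [hf₁]; simp [ι]
          rw [hf', inv_div, eq_div_iff if1]
          have : (ι g / (ι θ * ι f₁) - (ι θ)⁻¹) * ι f₁ = (ι g - ι f₁) / ι θ := by
            field_simp
          rw [this, hm']
          field_simp
        rw [r2] at h2
        have c3 : IsCoprime m f₁ := by
          rw [hm] at c2; exact c2.of_mul_left_right
        obtain ⟨_, D, hD, _⟩ := AS_poly c3 hf₁0 h2
        have hDB : IsCoprime D B := by
          rw [hD, hB] at hcop
          exact (IsCoprime.pow_iff (by norm_num) (by norm_num)).1 hcop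
        have c4 : IsCoprime (D - B) B := by
          have := hDB.add_mul_right_left (-1)
          have e : D + -1 * B = D - B := by ring
          rwa [e] at this
        have key : θ * (D - B) ^ 3 = a ^ 3 - a * B ^ 2 := by
          rw [← ha, hf₁, hD, hB]
          linear_combination (-(θ * D ^ 2 * B) + θ * D * B ^ 2) * (three0P (K := K))
        have hder := congrArg derivative key
        have hd3 : (D - B) ^ 3 = B * (a * derivative B - derivative a * B) := by
          have e1 : derivative (θ * (D - B) ^ 3) = (D - B) ^ 3 +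
              3 * (θ * (D - B) ^ 2 * derivative (D - B)) := by
            rw [derivative_mul, derivative_pow, hθdef, derivative_sub, derivative_X, derivative_C]
            simp only [Nat.cast_ofNat, map_ofNat]
            norm_num
            ring
          have e2 : derivative (a ^ 3 - a * B ^ 2) = 3 * (a ^ 2 * derivative a - a * B * derivative B)
              + B * (a * derivative B - derivative a * B) := by
            rw [derivative_sub, derivative_pow, derivative_mul, derivative_pow]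
            simp only [Nat.cast_ofNat, map_ofNat]
            norm_num
            ring
          rw [e1, e2, three0P] at hder
          simpa using hder
        have hBu : IsUnit B := by
          have hdvd : B ∣ (D - B) ^ 3 := ⟨_, hd3⟩
          have : IsCoprime ((D - B) ^ 3) B := c4.pow_left
          exact this.isUnit_of_dvd' hdvd dvd_rfl
        have b0 : B.natDegree = 0 := natDegree_eq_zero_of_isUnit hBu
        have e1 := natDegree_as (a := a) b0
        rw [← key] at e1
        have hDB0 : D - B = 0 := by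
          by_contra hne
          rw [natDegree_mul hθ0 (pow_ne_zero 3 hne), natDegree_pow, hθd] at e1
          omega
        refine ⟨0, ?_⟩
        have hDB' : D = B := sub_eq_zero.1 hDB0
        rw [hf₁, hD, hB, hDB']
        have ib := ι_ne hB0
        simp only [ι, map_mul, map_pow] at *
        field_simp
        simp
      · -- f is a cube
        have r2 : (ι f / ι g)⁻¹ - (ι θ)⁻¹ = ι (g - f₁) / ι (θ * f₁) := by
          rw [hf₁]
          simp only [ι, map_mul, map_sub] at *
          field_simp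
        rw [r2] at h2
        have c3 : IsCoprime (g - f₁) (θ * f₁) := by
          refine IsCoprime.mul_right ?_ c2
          exact ((hθp.irreducible.coprime_iff_not_dvd).2 hd2).symm
        obtain ⟨_, D, hD, _⟩ := AS_poly c3 (mul_ne_zero hθ0 hf₁0) h2
        rw [← hf₁] at hD
        exact cube D hD
    · exfalso
      have r2 : (ι f / ι g)⁻¹ - (ι θ)⁻¹ = ι (θ * g - f) / ι (θ * f) := by
        simp only [ι, map_mul, map_sub] at *
        field_simp
      rw [r2] at h2
      have cθf : IsCoprime θ f := (hθp.irreducible.coprime_iff_not_dvd).2 hdiv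
      have c3 : IsCoprime (θ * g - f) (θ * f) := by
        refine IsCoprime.mul_right ?_ ?_
        · have := cθf.symm.neg_left.add_mul_right_left g
          have e : -f + g * θ = θ * g - f := by ring
          rwa [e] at this
        · have h5 : IsCoprime (θ * g) f := cθf.mul_left hfg.symm
          have := h5.add_mul_right_left (-1)
          have e : θ * g + -1 * f = θ * g - f := by ring
          rwa [e] at this
      obtain ⟨_, D, hD, _⟩ := AS_poly c3 (mul_ne_zero hθ0 hf) h2
      have hθD : θ ∣ D := hθp.dvd_of_dvd_pow (n := 3) ⟨f, hD.symm⟩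
      obtain ⟨E, hE⟩ := hθD
      apply hdiv
      refine ⟨θ * E ^ 3, ?_⟩
      apply mul_left_cancel₀ hθ0
      rw [hD, hE]; ring

theorem T_iff (c : K) (x : RatFunc K) :
    (∃ s : ℕ, x = ι (X - C c) ^ 3 ^ s) ↔
      (x ≠ 0 ∧ AS (x - ι (X - C c)) ∧ AS (x⁻¹ - (ι (X - C c))⁻¹)) := by
  have hθ0 : (X - C c : K[X]) ≠ 0 := X_sub_C_ne_zero c
  constructor
  · rintro ⟨s, rfl⟩
    refine ⟨pow_ne_zero _ (ι_ne hθ0), AS.powk s _, ?_⟩
    rw [← inv_pow]
    exact AS.powk s _
  · rintro ⟨h0, h1, h2⟩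
    obtain ⟨f, g, hfg, hg, rfl⟩ := exists_rep x
    have hf : f ≠ 0 := by
      rintro rfl; apply h0; simp [ι]
    exact T_aux c _ f g hfg hg hf le_rfl h1 h2

/-- the variable -/
noncomputable abbrev tt : RatFunc K := ι (X : K[X])

def IsK (x : RatFunc K) : Prop := ∃ y : RatFunc K, x ^ 4 + y ^ 4 = 1

theorem four_ne : (4 : K) ≠ 0 := by
  have h3 : (3 : K) = 0 := by exact_mod_cast CharP.cast_eq_zero K 3
  have : (4 : K) = 3 + 1 := by norm_num
  rw [this, h3, zero_add]; exact one_ne_zero

theorem two_ne : (2 : K) ≠ 0 := by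
  have h3 : (3 : K) = 0 := by exact_mod_cast CharP.cast_eq_zero K 3
  intro h
  have : (1 : K) = 3 - 2 := by norm_num
  rw [h3, h] at this
  simp at this

theorem IsK_iff (x : RatFunc K) : IsK x ↔ ∃ c : K, x = κ c := by
  constructor
  · rintro ⟨y, h⟩
    by_cases hx : x = 0
    · exact ⟨0, by rw [hx, κ_zero]⟩
    by_cases hy : y = 0
    · rw [hy] at h
      obtain ⟨i, hi⟩ := IsAlgClosed.exists_pow_nat_eq (-1 : K) (n := 2) (by norm_num)
      have hi' : κ i ^ 2 = -1 := by
        rw [← κ_pow, hi]; simp [κ, ι]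
      have e : (x - 1) * (x + 1) * ((x - κ i) * (x + κ i)) = 0 := by
        have : (x - 1) * (x + 1) * ((x - κ i) * (x + κ i)) = (x ^ 2 - 1) * (x ^ 2 - κ i ^ 2) := by ring
        rw [this, hi']
        linear_combination h
      rcases mul_eq_zero.1 e with e | e
      · rcases mul_eq_zero.1 e with e | e
        · exact ⟨1, by rw [κ_one]; linear_combination e⟩
        · exact ⟨-1, by
            have : κ (-1 : K) = -1 := by simp [κ, ι]
            rw [this]; linear_combination e⟩
      · rcases mul_eq_zero.1 e with e | e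
        · exact ⟨i, by linear_combination e⟩
        · exact ⟨-i, by
            have : κ (-i : K) = -κ i := by simp [κ, ι]
            rw [this]; linear_combination e⟩
    · obtain ⟨a, b, _, hb, rfl⟩ := exists_rep x
      obtain ⟨a', b', _, hb', rfl⟩ := exists_rep y
      have ib := ι_ne hb
      have ib' := ι_ne hb'
      have ha : a ≠ 0 := by rintro rfl; apply hx; simp [ι]
      have ha' : a' ≠ 0 := by rintro rfl; apply hy; simp [ι]
      have e : (a * b') ^ 4 + (a' * b) ^ 4 = (b * b') ^ 4 := by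
        apply ι_inj
        simp only [ι, map_add, map_mul, map_pow] at *
        field_simp at h
        linear_combination h
      obtain ⟨d, u, v, w, ⟨e1, e2, e3⟩, hu, hv, hw⟩ :=
        fermatLastTheoremWith'_polynomial (k := K) (n := 4) (by norm_num)
          (by exact_mod_cast four_ne) _ _ _ (mul_ne_zero ha hb') (mul_ne_zero ha' hb)
          (mul_ne_zero hb hb') e
      obtain ⟨α, hα, rfl⟩ := Polynomial.isUnit_iff.1 hu
      obtain ⟨β, hβ, rfl⟩ := Polynomial.isUnit_iff.1 hw
      have hd : d ≠ 0 := by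
        rintro rfl; rw [mul_zero] at e1; exact mul_ne_zero ha hb' e1
      refine ⟨α / β, ?_⟩
      have e4 : ι a / ι b = ι (a * b') / ι (b * b') := by
        simp only [ι, map_mul] at *
        field_simp
      rw [e4, e1, e3]
      have hβ0 := hβ.ne_zero
      rw [div_eq_iff (ι_ne (mul_ne_zero (C_ne_zero.2 hβ0) hd))]
      have : C α = C (α / β) * C β := by rw [← C_mul, div_mul_cancel₀ α hβ0]
      rw [this]
      simp only [ι, κ, map_mul]; ring
  · rintro ⟨c, rfl⟩
    obtain ⟨d, hd⟩ := IsAlgClosed.exists_pow_nat_eq (1 - c ^ 4 : K) (n := 4) (by norm_num)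
    refine ⟨κ d, ?_⟩
    rw [← κ_pow, ← κ_pow, hd, ← κ_add, ← κ_one]
    congr 2; ring

def TT (θ x : RatFunc K) : Prop :=
  AS (x - θ) ∧ ∃ x' θ', x * x' = 1 ∧ θ * θ' = 1 ∧ AS (x' - θ')

theorem TT_iff (c : K) (x : RatFunc K) :
    TT (ι (X - C c)) x ↔ ∃ s : ℕ, x = ι (X - C c) ^ 3 ^ s := by
  rw [T_iff]
  constructor
  · rintro ⟨h1, x', θ', hx, hθ, h2⟩
    have hx0 : x ≠ 0 := left_ne_zero_of_mul_eq_one hx
    refine ⟨hx0, h1, ?_⟩
    rwa [← eq_inv_of_mul_eq_one_right hx, ← eq_inv_of_mul_eq_one_right hθ]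
  · rintro ⟨h0, h1, h2⟩
    exact ⟨h1, x⁻¹, _, mul_inv_cancel₀ h0, mul_inv_cancel₀ (ι_ne (X_sub_C_ne_zero c)), h2⟩

theorem tt_eq : (tt : RatFunc K) = ι (X - C 0) := by simp [tt]

theorem TTt_iff (x : RatFunc K) : TT tt x ↔ ∃ s : ℕ, x = tt ^ 3 ^ s := by
  rw [tt_eq]; exact TT_iff 0 x

/-- graph of the Frobenius power on constants -/
def EE (w c b : RatFunc K) : Prop := IsK b ∧ TT (tt - c) (w - b)

theorem sub_polyk (s : ℕ) (c : K) : (X - C c : K[X]) ^ 3 ^ s = X ^ 3 ^ s - C (c ^ 3 ^ s) := by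
  have : Fact (Nat.Prime 3) := ⟨Nat.prime_three⟩
  rw [sub_pow_char_pow, C_pow]

theorem EE_iff (k : ℕ) (c : K) (b : RatFunc K) :
    EE (tt ^ 3 ^ k) (κ c) b ↔ b = κ (c ^ 3 ^ k) := by
  have e0 : (tt - κ c : RatFunc K) = ι (X - C c) := by simp [tt, κ, ι]
  unfold EE
  rw [IsK_iff, e0, TT_iff]
  constructor
  · rintro ⟨⟨b', rfl⟩, s, hs⟩
    have e1 : (X ^ 3 ^ k - C b' : K[X]) = X ^ 3 ^ s - C (c ^ 3 ^ s) := by
      apply ι_inj
      rw [← sub_polyk]
      simp only [ι, tt, κ, map_sub, map_pow] at *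
      exact hs
    have n1 : (X ^ 3 ^ k - C b' : K[X]).natDegree = 3 ^ k := natDegree_X_pow_sub_C
    have n2 : (X ^ 3 ^ s - C (c ^ 3 ^ s) : K[X]).natDegree = 3 ^ s := natDegree_X_pow_sub_C
    have hks : 3 ^ k = 3 ^ s := by rw [← n1, e1, n2]
    rw [← hks] at e1
    have : C b' = C (c ^ 3 ^ k) := by linear_combination (-1 : K[X]) * e1
    rw [C_injective this]
  · rintro rfl
    refine ⟨⟨_, rfl⟩, k, ?_⟩
    have := congrArg ι (sub_polyk k c)
    simp only [ι, tt, κ, map_sub, map_pow] at *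
    exact this.symm

/-- graph of Frobenius powers -/
def Fr (w x y : RatFunc K) : Prop :=
  ∀ c b, IsK c → EE w c b → AS (b * y - c * x) ∧ AS (b * (w * y) - c * (tt * x))

theorem pow3k_surj (k : ℕ) (c : K) : ∃ d : K, d ^ 3 ^ k = c := by
  obtain ⟨d, hd⟩ := IsAlgClosed.exists_pow_nat_eq c (n := 3 ^ k) (by positivity)
  exact ⟨d, hd⟩

theorem Fr_iff (k : ℕ) (x y : RatFunc K) : Fr (tt ^ 3 ^ k) x y ↔ y = x ^ 3 ^ k := by
  constructor
  · intro h
    have h1 : ∀ c : K, AS (κ c * (y - x ^ 3 ^ k)) := by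
      intro c
      obtain ⟨d, rfl⟩ := pow3k_surj k c
      have := (h (κ d) (κ (d ^ 3 ^ k)) ((IsK_iff _).2 ⟨d, rfl⟩) ((EE_iff k d _).2 rfl)).1
      have e : κ (d ^ 3 ^ k) * (y - x ^ 3 ^ k) = (κ (d ^ 3 ^ k) * y - κ d * x) -
          ((κ d * x) ^ 3 ^ k - κ d * x) := by
        rw [mul_pow, κ_pow]; ring
      rw [e]; exact this.sub (AS.powk k _)
    have h2 : ∀ c : K, AS (κ c * (tt ^ 3 ^ k * (y - x ^ 3 ^ k))) := by
      intro c
      obtain ⟨d, rfl⟩ := pow3k_surj k c
      have := (h (κ d) (κ (d ^ 3 ^ k)) ((IsK_iff _).2 ⟨d, rfl⟩) ((EE_iff k d _).2 rfl)).2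
      have e : κ (d ^ 3 ^ k) * (tt ^ 3 ^ k * (y - x ^ 3 ^ k)) =
          (κ (d ^ 3 ^ k) * (tt ^ 3 ^ k * y) - κ d * (tt * x)) -
          ((κ d * (tt * x)) ^ 3 ^ k - κ d * (tt * x)) := by
        rw [mul_pow, mul_pow, κ_pow]; ring
      rw [e]; exact this.sub (AS.powk k _)
    obtain ⟨a, ha⟩ := const_of_AS _ h1
    obtain ⟨b, hb⟩ := const_of_AS _ h2
    rw [ha] at hb
    have e : (X ^ 3 ^ k * C a : K[X]) = C b := by
      apply ι_inj
      simp only [ι, tt, κ, map_mul, map_pow] at *
      exact hb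
    have ha0 : a = 0 := by
      by_contra hne
      have := congrArg natDegree e
      rw [natDegree_mul (pow_ne_zero _ X_ne_zero) (C_ne_zero.2 hne), natDegree_C, natDegree_C,
        natDegree_X_pow] at this
      have : 0 < 3 ^ k := by positivity
      omega
    rw [ha0, κ_zero] at ha
    exact sub_eq_zero.1 ha
  · rintro rfl c b hc hE
    obtain ⟨c, rfl⟩ := (IsK_iff _).1 hc
    rw [EE_iff] at hE
    subst hE
    constructor
    · have : κ (c ^ 3 ^ k) * x ^ 3 ^ k - κ c * x = (κ c * x) ^ 3 ^ k - κ c * x := by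
        rw [mul_pow, κ_pow]
      rw [this]; exact AS.powk k _
    · have : κ (c ^ 3 ^ k) * (tt ^ 3 ^ k * x ^ 3 ^ k) - κ c * (tt * x) =
          (κ c * (tt * x)) ^ 3 ^ k - κ c * (tt * x) := by
        rw [mul_pow, mul_pow, κ_pow]
      rw [this]; exact AS.powk k _

end Pool.Agent.Helper180.VR
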