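import Mathlib
import Pool.Agent.Helper180.VR.Frob

set_option autoImplicit false
set_option linter.all false

open Polynomial

namespace Pool.Agent.Helper180.VR

variable {K : Type*} [Field K] [IsAlgClosed K] [CharP K 3]

theorem deg_add_of_lt {x y : RatFunc K} (hx : x ≠ 0) (hy : y ≠ 0)
    (h : x.intDegree < y.intDegree) : x + y ≠ 0 ∧ (x + y).intDegree = y.intDegree := by
  have h0 : x + y ≠ 0 := by
    intro e
    have : x = -y := by linear_combination e
    rw [this, RatFunc.intDegree_neg] at h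
    exact lt_irrefl _ h
  refine ⟨h0, ?_⟩
  have h1 := RatFunc.intDegree_add_le hy h0
  have h2 : (x + y) + -x ≠ 0 := by
    have : (x + y) + -x = y := by ring
    rw [this]; exact hy
  have h3 := RatFunc.intDegree_add_le (x := x + y) (y := -x) (neg_ne_zero.2 hx) h2
  have h4 : (x + y) + -x = y := by ring
  rw [h4, RatFunc.intDegree_neg] at h3
  rcases le_max_iff.1 h1 with h1 | h1
  · rcases le_max_iff.1 h3 with h3 | h3 <;> omega
  · rcases le_max_iff.1 h3 with h3 | h3 <;> omega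

theorem deg_pow {x : RatFunc K} (hx : x ≠ 0) (n : ℕ) : (x ^ n).intDegree = n * x.intDegree := by
  induction n with
  | zero => simp
  | succ n ih =>
    rw [pow_succ, RatFunc.intDegree_mul (pow_ne_zero n hx) hx, ih]
    push_cast; ring

theorem tt_ne : (tt : RatFunc K) ≠ 0 := ι_ne X_ne_zero

theorem deg_tt : (tt : RatFunc K).intDegree = 1 := by
  have : (tt : RatFunc K) = RatFunc.X := by simp [tt, ι, RatFunc.algebraMap_X]
  rw [this]; exact RatFunc.intDegree_X

/-- degree obstruction -/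
theorem deg_obstruct (a b y : RatFunc K) (hb : b ≠ 0)
    (ha : a = 0 ∨ a.intDegree < 3 * b.intDegree + 2) (hpos : 0 < 3 * b.intDegree + 2) :
    ¬ AS (a + tt ^ 2 * b ^ 3 - tt * y ^ 3) := by
  rintro ⟨u, hu⟩
  have h2 : (tt ^ 2 * b ^ 3 : RatFunc K) ≠ 0 := mul_ne_zero (pow_ne_zero _ tt_ne) (pow_ne_zero _ hb)
  have d2 : (tt ^ 2 * b ^ 3 : RatFunc K).intDegree = 3 * b.intDegree + 2 := by
    rw [RatFunc.intDegree_mul (pow_ne_zero _ tt_ne) (pow_ne_zero _ hb), deg_pow tt_ne,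
      deg_pow hb, deg_tt]
    push_cast; ring
  -- S := t^2 b^3 - t y^3
  have hS : (tt ^ 2 * b ^ 3 - tt * y ^ 3 : RatFunc K) ≠ 0 ∧
      3 * b.intDegree + 2 ≤ (tt ^ 2 * b ^ 3 - tt * y ^ 3 : RatFunc K).intDegree ∧
      ¬ (3 ∣ (tt ^ 2 * b ^ 3 - tt * y ^ 3 : RatFunc K).intDegree) := by
    by_cases hy : y = 0
    · rw [hy]
      have : (tt ^ 2 * b ^ 3 - tt * 0 ^ 3 : RatFunc K) = tt ^ 2 * b ^ 3 := by ring
      rw [this, d2]
      refine ⟨h2, le_rfl, ?_⟩
      omega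
    · have h3 : (-(tt * y ^ 3) : RatFunc K) ≠ 0 :=
        neg_ne_zero.2 (mul_ne_zero tt_ne (pow_ne_zero _ hy))
      have d3 : (-(tt * y ^ 3) : RatFunc K).intDegree = 3 * y.intDegree + 1 := by
        rw [RatFunc.intDegree_neg, RatFunc.intDegree_mul tt_ne (pow_ne_zero _ hy), deg_pow hy,
          deg_tt]
        push_cast; ring
      rcases lt_or_ge (3 * y.intDegree + 1) (3 * b.intDegree + 2) with hlt | hge
      · obtain ⟨e1, e2⟩ := deg_add_of_lt h3 h2 (by rw [d2, d3]; exact hlt)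
        have : (-(tt * y ^ 3) + tt ^ 2 * b ^ 3 : RatFunc K) = tt ^ 2 * b ^ 3 - tt * y ^ 3 := by ring
        rw [this] at e1 e2
        rw [e2, d2]
        exact ⟨e1, le_rfl, by omega⟩
      · have hlt : 3 * b.intDegree + 2 < 3 * y.intDegree + 1 := by omega
        obtain ⟨e1, e2⟩ := deg_add_of_lt h2 h3 (by rw [d2, d3]; exact hlt)
        have : (tt ^ 2 * b ^ 3 + -(tt * y ^ 3) : RatFunc K) = tt ^ 2 * b ^ 3 - tt * y ^ 3 := by ring
        rw [this] at e1 e2
        rw [e2, d3]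
        exact ⟨e1, by omega, by omega⟩
  obtain ⟨hS0, hS1, hS2⟩ := hS
  have hE : (a + tt ^ 2 * b ^ 3 - tt * y ^ 3 : RatFunc K) ≠ 0 ∧
      (a + tt ^ 2 * b ^ 3 - tt * y ^ 3 : RatFunc K).intDegree =
        (tt ^ 2 * b ^ 3 - tt * y ^ 3 : RatFunc K).intDegree := by
    have e : (a + tt ^ 2 * b ^ 3 - tt * y ^ 3 : RatFunc K) = a + (tt ^ 2 * b ^ 3 - tt * y ^ 3) := by
      ring
    rw [e]
    by_cases ha0 : a = 0
    · rw [ha0, zero_add]; exact ⟨hS0, rfl⟩
    · rcases ha with ha | ha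
      · exact absurd ha ha0
      · exact deg_add_of_lt ha0 hS0 (by omega)
  obtain ⟨hE0, hE1⟩ := hE
  rw [hu] at hE0 hE1
  have hu0 : u ≠ 0 := by
    rintro rfl; apply hE0; ring
  have h5 : (-u : RatFunc K) ≠ 0 := neg_ne_zero.2 hu0
  have h6 : (u ^ 3 : RatFunc K) ≠ 0 := pow_ne_zero _ hu0
  have d6 : (u ^ 3 : RatFunc K).intDegree = 3 * u.intDegree := by
    rw [deg_pow hu0]; norm_num
  rcases lt_or_ge 0 u.intDegree with hup | hun
  · obtain ⟨_, e2⟩ := deg_add_of_lt h5 h6 (by rw [RatFunc.intDegree_neg, d6]; omega)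
    have : (-u + u ^ 3 : RatFunc K) = u ^ 3 - u := by ring
    rw [this, d6] at e2
    rw [e2] at hE1
    apply hS2
    rw [← hE1]
    exact dvd_mul_right 3 _
  · have h7 : (u ^ 3 + -u : RatFunc K) ≠ 0 := by
      have : (u ^ 3 + -u : RatFunc K) = u ^ 3 - u := by ring
      rw [this]; exact hE0
    have h8 := RatFunc.intDegree_add_le h5 h7
    have : (u ^ 3 + -u : RatFunc K) = u ^ 3 - u := by ring
    rw [this, d6, RatFunc.intDegree_neg] at h8
    rcases le_max_iff.1 h8 with h8 | h8 <;> omega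

/-- existence of coordinates with respect to the 3-basis `t` -/
theorem basis3 (x : RatFunc K) : ∃ a b c : RatFunc K, x = a ^ 3 + tt * b ^ 3 + tt ^ 2 * c ^ 3 := by
  have hpoly : ∀ f : K[X], ∃ a b c : RatFunc K, ι f = a ^ 3 + tt * b ^ 3 + tt ^ 2 * c ^ 3 := by
    intro f
    induction f using Polynomial.induction_on' with
    | add p q hp hq =>
      obtain ⟨a, b, c, h⟩ := hp
      obtain ⟨a', b', c', h'⟩ := hq
      refine ⟨a + a', b + b', c + c', ?_⟩
      rw [add3, add3, add3]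
      have : ι (p + q) = ι p + ι q := by simp [ι]
      rw [this, h, h']; ring
    | monomial n α =>
      induction n with
      | zero =>
        obtain ⟨d, hd⟩ := exists_cbrt α
        refine ⟨κ d, 0, 0, ?_⟩
        rw [monomial_zero_left, ← κ_pow, hd]; ring
      | succ n ih =>
        obtain ⟨a, b, c, h⟩ := ih
        refine ⟨tt * c, a, b, ?_⟩
        have : ι (monomial (n + 1) α : K[X]) = tt * ι (monomial n α) := by
          rw [← X_mul_monomial]; simp only [ι, tt, map_mul]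
        rw [this, h]; ring
  obtain ⟨f, g, _, hg, rfl⟩ := exists_rep x
  obtain ⟨a, b, c, h⟩ := hpoly (f * g ^ 2)
  have ig := ι_ne hg
  refine ⟨a / ι g, b / ι g, c / ι g, ?_⟩
  have e : ι (f * g ^ 2) = ι f * ι g ^ 2 := by simp [ι]
  rw [e] at h
  field_simp
  rw [h]

theorem basis_indep {a b : RatFunc K} (h : tt * a ^ 3 + b ^ 3 = 0) : a = 0 ∧ b = 0 := by
  by_cases ha : a = 0
  · refine ⟨ha, ?_⟩
    rw [ha] at h
    have : b ^ 3 = 0 := by linear_combination h
    exact pow_eq_zero_iff (by norm_num) |>.1 this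
  · exfalso
    by_cases hb : b = 0
    · rw [hb] at h
      have : tt * a ^ 3 = 0 := by linear_combination h
      exact mul_ne_zero tt_ne (pow_ne_zero _ ha) this
    · have e : tt * a ^ 3 = -b ^ 3 := by linear_combination h
      have := congrArg RatFunc.intDegree e
      rw [RatFunc.intDegree_neg, RatFunc.intDegree_mul tt_ne (pow_ne_zero _ ha), deg_pow ha,
        deg_pow hb, deg_tt] at this
      push_cast at this
      omega

/-- codes of length `k` -/
def SA : ℕ → RatFunc K → Prop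
  | 0, x => x = 0
  | k + 1, x => ∃ g y, SA k y ∧ x = tt * g ^ 3 + y ^ 3

def PA (k : ℕ) (x : RatFunc K) : Prop := ∀ z : RatFunc K, ∃ y, AS (z ^ 3 ^ k * x - tt * y ^ 3)

theorem SA_imp_PA (k : ℕ) : ∀ x : RatFunc K, SA k x → PA k x := by
  induction k with
  | zero =>
    intro x hx z
    refine ⟨0, ?_⟩
    have : x = 0 := hx
    rw [this]
    exact ⟨0, by ring⟩
  | succ k ih =>
    rintro x ⟨g, y, hy, rfl⟩ z
    obtain ⟨v, hv⟩ := ih y hy z
    refine ⟨z ^ 3 ^ k * g + v, ?_⟩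
    have e : z ^ 3 ^ (k + 1) * (tt * g ^ 3 + y ^ 3) - tt * (z ^ 3 ^ k * g + v) ^ 3 =
        ((z ^ 3 ^ k * y) ^ 3 - z ^ 3 ^ k * y) + (z ^ 3 ^ k * y - tt * v ^ 3) := by
      rw [add3, pow_succ 3 k, pow_mul]; ring
    rw [e]
    exact (AS.self _).add hv

theorem PA_imp_SA (k : ℕ) : ∀ x : RatFunc K, PA k x → SA k x := by
  induction k with
  | zero =>
    intro x hx
    by_contra hne
    have hne' : x ≠ 0 := hne
    obtain ⟨y, hy⟩ := hx (tt ^ 2 / x)
    have e : (tt ^ 2 / x) ^ 3 ^ 0 * x - tt * y ^ 3 = 0 + tt ^ 2 * 1 ^ 3 - tt * y ^ 3 := by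
      rw [pow_zero, pow_one, div_mul_cancel₀ _ hne']; ring
    rw [e] at hy
    exact deg_obstruct 0 1 y one_ne_zero (Or.inl rfl) (by simp) hy
  | succ k ih =>
    intro x hx
    obtain ⟨a, b, c, rfl⟩ := basis3 x
    have key : ∀ z : RatFunc K, ∃ y, AS (z ^ 3 ^ k * a + tt ^ 2 * (z ^ 3 ^ k * c) ^ 3 - tt * y ^ 3) := by
      intro z
      obtain ⟨y, hy⟩ := hx z
      refine ⟨y - z ^ 3 ^ k * b, ?_⟩
      have e : z ^ 3 ^ k * a + tt ^ 2 * (z ^ 3 ^ k * c) ^ 3 - tt * (y - z ^ 3 ^ k * b) ^ 3 =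
          (z ^ 3 ^ (k + 1) * (a ^ 3 + tt * b ^ 3 + tt ^ 2 * c ^ 3) - tt * y ^ 3) -
            ((z ^ 3 ^ k * a) ^ 3 - z ^ 3 ^ k * a) := by
        rw [sub3, pow_succ 3 k, pow_mul]; ring
      rw [e]; exact hy.sub (AS.self _)
    have hc : c = 0 := by
      by_contra hc
      -- choose z = t ^ M
      set M : ℕ := a.intDegree.natAbs + 3 * c.intDegree.natAbs + 1 with hM
      obtain ⟨y, hy⟩ := key (tt ^ M)
      have hz0 : ((tt ^ M) ^ 3 ^ k : RatFunc K) ≠ 0 := pow_ne_zero _ (pow_ne_zero _ tt_ne)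
      have dz : ((tt ^ M) ^ 3 ^ k : RatFunc K).intDegree = (3 ^ k : ℕ) * (M : ℤ) := by
        rw [deg_pow (pow_ne_zero _ tt_ne), deg_pow tt_ne, deg_tt, mul_one]
      have hbig : (M : ℤ) ≤ (3 ^ k : ℕ) * (M : ℤ) := by
        have h1 : (1 : ℤ) ≤ ((3 ^ k : ℕ) : ℤ) := by
          exact_mod_cast Nat.one_le_pow k 3 (by norm_num)
        nlinarith
      set Z : RatFunc K := (tt ^ M) ^ 3 ^ k with hZ
      have dc : (Z * c).intDegree = Z.intDegree + c.intDegree := RatFunc.intDegree_mul hz0 hc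
      refine deg_obstruct (Z * a) (Z * c) y (mul_ne_zero hz0 hc) ?_ ?_ hy
      · by_cases ha : a = 0
        · left; rw [ha, mul_zero]
        · right
          rw [dc, RatFunc.intDegree_mul hz0 ha, dz]
          have := Int.natAbs_of_nonneg (abs_nonneg a.intDegree)
          omega
      · rw [dc, dz]; omega
    subst hc
    refine ⟨b, a, ih a ?_, by ring⟩
    intro z
    obtain ⟨y, hy⟩ := key z
    refine ⟨y, ?_⟩
    have e : z ^ 3 ^ k * a - tt * y ^ 3 =
        z ^ 3 ^ k * a + tt ^ 2 * (z ^ 3 ^ k * 0) ^ 3 - tt * y ^ 3 := by ring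
    rw [e]; exact hy

theorem PA_iff (k : ℕ) (x : RatFunc K) : PA k x ↔ SA k x := ⟨PA_imp_SA k x, SA_imp_PA k x⟩

/-- entry `k` of the sequence coded by `x` -/
def B : ℕ → RatFunc K → RatFunc K → Prop
  | 0, x, g => ∃ y, x = tt * g ^ 3 + y ^ 3
  | k + 1, x, g => ∃ d y, x = tt * d ^ 3 + y ^ 3 ∧ B k y g

theorem basis_unique {a b a' b' : RatFunc K} (h : tt * a ^ 3 + b ^ 3 = tt * a' ^ 3 + b' ^ 3) :
    a = a' ∧ b = b' := by
  have e : tt * (a - a') ^ 3 + (b - b') ^ 3 = 0 := by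
    rw [sub3, sub3]; linear_combination h
  obtain ⟨h1, h2⟩ := basis_indep e
  exact ⟨sub_eq_zero.1 h1, sub_eq_zero.1 h2⟩

theorem B_unique (k : ℕ) : ∀ x g g' : RatFunc K, B k x g → B k x g' → g = g' := by
  induction k with
  | zero =>
    rintro x g g' ⟨y, hy⟩ ⟨y', hy'⟩
    exact (basis_unique (hy.symm.trans hy')).1
  | succ k ih =>
    rintro x g g' ⟨d, y, hy, hB⟩ ⟨d', y', hy', hB'⟩
    obtain ⟨_, rfl⟩ := basis_unique (hy.symm.trans hy')
    exact ih _ _ _ hB hB'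

theorem B_iff (k : ℕ) : ∀ x g : RatFunc K, B k x g ↔
    ∃ a y, SA k a ∧ x = a + (tt * g ^ 3 + y ^ 3) ^ 3 ^ k := by
  induction k with
  | zero =>
    intro x g
    constructor
    · rintro ⟨y, hy⟩
      exact ⟨0, y, rfl, by rw [hy]; simp⟩
    · rintro ⟨a, y, ha, hx⟩
      have : a = 0 := ha
      refine ⟨y, ?_⟩
      rw [hx, this]; simp
  | succ k ih =>
    intro x g
    constructor
    · rintro ⟨d, y, hx, hB⟩
      obtain ⟨a, z, ha, hy⟩ := (ih y g).1 hB
      refine ⟨tt * d ^ 3 + a ^ 3, z, ⟨d, a, ha, rfl⟩, ?_⟩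
      rw [hx, hy, add3, pow_succ 3 k, pow_mul]; ring
    · rintro ⟨a, z, ⟨d, a', ha', ha⟩, hx⟩
      refine ⟨d, a' + (tt * g ^ 3 + z ^ 3) ^ 3 ^ k, ?_, (ih _ _).2 ⟨a', z, ha', rfl⟩⟩
      rw [hx, ha, add3, pow_succ 3 k, pow_mul]; ring

theorem B_zero (k : ℕ) : B k (0 : RatFunc K) 0 := by
  induction k with
  | zero => exact ⟨0, by ring⟩
  | succ k ih => exact ⟨0, 0, by ring, ih⟩

noncomputable def code : (ℕ → RatFunc K) → ℕ → RatFunc K
  | g, 0 => tt * (g 0) ^ 3
  | g, n + 1 => tt * (g 0) ^ 3 + (code (fun i => g (i + 1)) n) ^ 3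

theorem B_code (n : ℕ) : ∀ (k : ℕ) (g : ℕ → RatFunc K), (∀ i, n < i → g i = 0) →
    B k (code g n) (g k) := by
  induction n with
  | zero =>
    intro k g hg
    cases k with
    | zero => exact ⟨0, by simp [code]⟩
    | succ k =>
      refine ⟨g 0, 0, by simp [code], ?_⟩
      rw [hg (k + 1) (by omega)]
      exact B_zero k
  | succ n ih =>
    intro k g hg
    cases k with
    | zero => exact ⟨_, rfl⟩
    | succ k =>
      exact ⟨g 0, _, rfl, ih k (fun i => g (i + 1)) (fun i hi => hg (i + 1) (by omega))⟩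

def AA (w x : RatFunc K) : Prop := ∀ z z', Fr w z z' → ∃ y, AS (z' * x - tt * y ^ 3)

theorem AA_iff (k : ℕ) (x : RatFunc K) : AA (tt ^ 3 ^ k) x ↔ SA k x := by
  rw [← PA_iff]
  constructor
  · intro h z
    exact h z (z ^ 3 ^ k) ((Fr_iff k _ _).2 rfl)
  · intro h z z' hz
    rw [Fr_iff] at hz
    subst hz
    exact h z

def BB (w x g : RatFunc K) : Prop :=
  ∃ a y e, AA w a ∧ Fr w (tt * g ^ 3 + y ^ 3) e ∧ x = a + e

theorem BB_iff (k : ℕ) (x g : RatFunc K) : BB (tt ^ 3 ^ k) x g ↔ B k x g := by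
  rw [B_iff]
  constructor
  · rintro ⟨a, y, e, ha, he, hx⟩
    rw [AA_iff] at ha
    rw [Fr_iff] at he
    exact ⟨a, y, ha, by rw [hx, he]⟩
  · rintro ⟨a, y, ha, hx⟩
    exact ⟨a, y, _, (AA_iff k a).2 ha, (Fr_iff k _ _).2 rfl, hx⟩

/-- first-order description of the polynomials -/
def Poly (x : RatFunc K) : Prop :=
  ∃ s w, TT tt w ∧ (∃ g0, IsK g0 ∧ BB tt s g0) ∧ BB w s x ∧
    ∀ v, TT tt v → v ≠ w → ∃ g g', BB v s g ∧ BB (v ^ 3) s g' ∧ IsK (g' - tt * g)

theorem tt_pow_inj {m n : ℕ} (h : (tt : RatFunc K) ^ 3 ^ m = tt ^ 3 ^ n) : m = n := by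
  have := congrArg RatFunc.intDegree h
  rw [deg_pow tt_ne, deg_pow tt_ne, deg_tt] at this
  have h2 : (3 ^ m : ℕ) = 3 ^ n := by
    have := this
    push_cast at this
    simp only [mul_one] at this
    exact_mod_cast this
  exact Nat.pow_right_injective (le_refl 2 |>.trans (by norm_num)) h2

theorem Poly_imp (x : RatFunc K) (h : Poly x) : ∃ f : K[X], x = ι f := by
  obtain ⟨s, w, hw, ⟨g0, hg0, hB0⟩, hBx, hstep⟩ := h
  obtain ⟨n, rfl⟩ := (TTt_iff w).1 hw
  have key : ∀ k, k ≤ n → ∃ f : K[X], B k s (ι f) := by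
    intro k
    induction k with
    | zero =>
      intro _
      obtain ⟨c, rfl⟩ := (IsK_iff g0).1 hg0
      refine ⟨C c, ?_⟩
      have : BB (tt ^ 3 ^ 0) s (κ c) := by simpa using hB0
      exact (BB_iff 0 s _).1 this
    | succ k ih =>
      intro hk
      obtain ⟨f, hf⟩ := ih (by omega)
      obtain ⟨g, g', h1, h2, h3⟩ := hstep (tt ^ 3 ^ k) ((TTt_iff _).2 ⟨k, rfl⟩) (by
        intro e
        have := tt_pow_inj e
        omega)
      rw [BB_iff] at h1
      have e3 : ((tt : RatFunc K) ^ 3 ^ k) ^ 3 = tt ^ 3 ^ (k + 1) := by rw [← pow_mul, ← pow_succ]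
      rw [e3, BB_iff] at h2
      obtain ⟨c, hc⟩ := (IsK_iff _).1 h3
      have : g = ι f := B_unique k s _ _ h1 hf
      refine ⟨X * f + C c, ?_⟩
      have e : ι (X * f + C c) = g' := by
        have : ι (X * f + C c) = tt * ι f + κ c := by simp [ι, tt, κ]
        rw [this, ← hc, ‹g = ι f›]; ring
      rw [e]; exact h2
  obtain ⟨f, hf⟩ := key n le_rfl
  rw [BB_iff] at hBx
  exact ⟨f, B_unique n s _ _ hBx hf⟩

theorem natDegree_divX_iter (f : K[X]) (n : ℕ) : (divX^[n] f).natDegree = f.natDegree - n := by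
  induction n with
  | zero => rfl
  | succ n ih =>
    rw [Function.iterate_succ_apply', natDegree_divX_eq_natDegree_tsub_one, ih]; omega

theorem imp_Poly (f : K[X]) : Poly (ι f) := by
  set n := f.natDegree with hn
  set h : ℕ → K[X] := fun k => if k ≤ n then divX^[n - k] f else 0 with hh
  have hn' : h n = f := by simp [hh]
  have h0 : ∃ c, h 0 = C c := by
    have : (h 0).natDegree = 0 := by
      simp only [hh, Nat.zero_le, if_true, Nat.sub_zero]
      rw [natDegree_divX_iter]; omega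
    obtain ⟨c, hc⟩ := natDegree_eq_zero.1 this
    exact ⟨c, hc.symm⟩
  have hs : ∀ k, k ≠ n → ∃ c, h (k + 1) - X * h k = C c := by
    intro k hk
    by_cases hlt : k < n
    · refine ⟨(h (k + 1)).coeff 0, ?_⟩
      have e1 : h k = divX (h (k + 1)) := by
        simp only [hh]
        rw [if_pos (by omega), if_pos (by omega), ← Function.iterate_succ_apply' divX]
        congr 1
        omega
      rw [e1]
      have := divX_mul_X_add (h (k + 1))
      linear_combination -this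
    · refine ⟨0, ?_⟩
      simp only [hh]
      rw [if_neg (by omega), if_neg (by omega)]
      simp
  set g : ℕ → RatFunc K := fun k => ι (h k) with hg
  have hB : ∀ k, B k (code g n) (g k) := fun k => B_code n k g (by
    intro i hi
    simp only [hg, hh]
    rw [if_neg (by omega)]
    simp [ι])
  refine ⟨code g n, tt ^ 3 ^ n, (TTt_iff _).2 ⟨n, rfl⟩, ⟨g 0, ?_, ?_⟩, ?_, ?_⟩
  · obtain ⟨c, hc⟩ := h0
    exact (IsK_iff _).2 ⟨c, by simp only [hg]; rw [hc]⟩
  · have := (BB_iff 0 _ _).2 (hB 0)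
    simpa using this
  · rw [BB_iff]
    have := hB n
    simp only [hg, hn'] at this
    exact this
  · intro v hv hne
    obtain ⟨k, rfl⟩ := (TTt_iff v).1 hv
    have hkn : k ≠ n := by rintro rfl; exact hne rfl
    refine ⟨g k, g (k + 1), (BB_iff _ _ _).2 (hB k), ?_, ?_⟩
    · have e3 : ((tt : RatFunc K) ^ 3 ^ k) ^ 3 = tt ^ 3 ^ (k + 1) := by rw [← pow_mul, ← pow_succ]
      rw [e3]
      exact (BB_iff _ _ _).2 (hB (k + 1))
    · obtain ⟨c, hc⟩ := hs k hkn
      refine (IsK_iff _).2 ⟨c, ?_⟩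
      have := congrArg ι hc
      simp only [ι, tt, κ, hg, map_sub, map_mul] at *
      exact this

theorem Poly_iff (x : RatFunc K) : Poly x ↔ ∃ f : K[X], x = ι f :=
  ⟨Poly_imp x, by rintro ⟨f, rfl⟩; exact imp_Poly f⟩

end Pool.Agent.Helper180.VR
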