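import Mathlib
import Pool.Agent.Helper180.VR.Poly
import Pool.Agent.Helper180.VR.Logic

set_option autoImplicit false
set_option linter.all false

open Polynomial FirstOrder FirstOrder.Ring

namespace Pool.Agent.Helper180.VR

section
variable {K : Type*} [Field K] [CompatibleRing (RatFunc K)]

theorem ds_AS {f : (ℕ → RatFunc K) → RatFunc K} (hf : TD f) : DS (fun v => AS (f v)) := by
  unfold AS
  refine DS.ex (P := fun u v => f v = u ^ 3 - u) ?_
  exact DS.eq hf.sh (((TD.var 0).pow 3).sub (TD.var 0))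

theorem ds_IsK {f : (ℕ → RatFunc K) → RatFunc K} (hf : TD f) : DS (fun v => IsK (f v)) := by
  unfold IsK
  refine DS.ex (P := fun u v => f v ^ 4 + u ^ 4 = 1) ?_
  exact DS.eq ((hf.sh.pow 4).add ((TD.var 0).pow 4)) (TD.const 1)

theorem ds_TT {f g : (ℕ → RatFunc K) → RatFunc K} (hf : TD f) (hg : TD g) :
    DS (fun v => TT (f v) (g v)) := by
  unfold TT
  refine DS.and (ds_AS (hg.sub hf)) ?_
  refine DS.ex (P := fun x' v => ∃ θ', g v * x' = 1 ∧ f v * θ' = 1 ∧ AS (x' - θ')) ?_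
  refine DS.ex (P := fun θ' v => g (fun n => v (n + 1)) * v 0 = 1 ∧
    f (fun n => v (n + 1)) * θ' = 1 ∧ AS (v 0 - θ')) ?_
  exact DS.and (DS.eq (hg.sh.sh.mul (TD.var 1)) (TD.const 1))
    (DS.and (DS.eq (hf.sh.sh.mul (TD.var 0)) (TD.const 1)) (ds_AS ((TD.var 1).sub (TD.var 0))))

theorem ds_EE {w c b : (ℕ → RatFunc K) → RatFunc K} (hw : TD w) (hc : TD c) (hb : TD b) :
    DS (fun v => EE (w v) (c v) (b v)) := by
  unfold EE
  exact DS.and (ds_IsK hb) (ds_TT ((TD.const _).sub hc) (hw.sub hb))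

theorem ds_Fr {w x y : (ℕ → RatFunc K) → RatFunc K} (hw : TD w) (hx : TD x) (hy : TD y) :
    DS (fun v => Fr (w v) (x v) (y v)) := by
  unfold Fr
  refine DS.all (P := fun c v => ∀ b, IsK c → EE (w v) c b →
    AS (b * y v - c * x v) ∧ AS (b * (w v * y v) - c * (tt * x v))) ?_
  refine DS.all (P := fun b v => IsK (v 0) → EE (w (fun n => v (n + 1))) (v 0) b →
    AS (b * y (fun n => v (n + 1)) - v 0 * x (fun n => v (n + 1))) ∧
    AS (b * (w (fun n => v (n + 1)) * y (fun n => v (n + 1))) -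
      v 0 * (tt * x (fun n => v (n + 1))))) ?_
  have w2 := hw.sh.sh
  have x2 := hx.sh.sh
  have y2 := hy.sh.sh
  refine DS.imp (ds_IsK (TD.var 1)) (DS.imp (ds_EE w2 (TD.var 1) (TD.var 0)) (DS.and ?_ ?_))
  · exact ds_AS (((TD.var 0).mul y2).sub ((TD.var 1).mul x2))
  · exact ds_AS (((TD.var 0).mul (w2.mul y2)).sub ((TD.var 1).mul ((TD.const _).mul x2)))

theorem ds_AA {w x : (ℕ → RatFunc K) → RatFunc K} (hw : TD w) (hx : TD x) :
    DS (fun v => AA (w v) (x v)) := by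
  unfold AA
  refine DS.all (P := fun z v => ∀ z', Fr (w v) z z' → ∃ y, AS (z' * x v - tt * y ^ 3)) ?_
  refine DS.all (P := fun z' v => Fr (w (fun n => v (n + 1))) (v 0) z' →
    ∃ y, AS (z' * x (fun n => v (n + 1)) - tt * y ^ 3)) ?_
  refine DS.imp (ds_Fr hw.sh.sh (TD.var 1) (TD.var 0)) ?_
  refine DS.ex (P := fun y v => AS (v 0 * x (fun n => v (n + 1 + 1)) - tt * y ^ 3)) ?_
  exact ds_AS (((TD.var 1).mul hx.sh.sh.sh).sub ((TD.const _).mul ((TD.var 0).pow 3)))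

theorem ds_BB {w x g : (ℕ → RatFunc K) → RatFunc K} (hw : TD w) (hx : TD x) (hg : TD g) :
    DS (fun v => BB (w v) (x v) (g v)) := by
  unfold BB
  refine DS.ex (P := fun a v => ∃ y e, AA (w v) a ∧ Fr (w v) (tt * g v ^ 3 + y ^ 3) e ∧
    x v = a + e) ?_
  refine DS.ex (P := fun y v => ∃ e, AA (w (fun n => v (n + 1))) (v 0) ∧
    Fr (w (fun n => v (n + 1))) (tt * g (fun n => v (n + 1)) ^ 3 + y ^ 3) e ∧
    x (fun n => v (n + 1)) = v 0 + e) ?_
  refine DS.ex (P := fun e v => AA (w (fun n => v (n + 1 + 1))) (v 1) ∧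
    Fr (w (fun n => v (n + 1 + 1))) (tt * g (fun n => v (n + 1 + 1)) ^ 3 + v 0 ^ 3) e ∧
    x (fun n => v (n + 1 + 1)) = v 1 + e) ?_
  have w3 := hw.sh.sh.sh
  have x3 := hx.sh.sh.sh
  have g3 := hg.sh.sh.sh
  refine DS.and (ds_AA w3 (TD.var 2)) (DS.and (ds_Fr w3 ?_ (TD.var 0)) ?_)
  · exact ((TD.const _).mul (g3.pow 3)).add ((TD.var 1).pow 3)
  · exact DS.eq x3 ((TD.var 2).add (TD.var 0))

theorem ds_Poly {x : (ℕ → RatFunc K) → RatFunc K} (hx : TD x) : DS (fun v => Poly (x v)) := by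
  unfold Poly
  refine DS.ex (P := fun s v => ∃ w, TT tt w ∧ (∃ g0, IsK g0 ∧ BB tt s g0) ∧ BB w s (x v) ∧
    ∀ u, TT tt u → u ≠ w → ∃ g g', BB u s g ∧ BB (u ^ 3) s g' ∧ IsK (g' - tt * g)) ?_
  refine DS.ex (P := fun w v => TT tt w ∧ (∃ g0, IsK g0 ∧ BB tt (v 0) g0) ∧
    BB w (v 0) (x (fun n => v (n + 1))) ∧
    ∀ u, TT tt u → u ≠ w → ∃ g g', BB u (v 0) g ∧ BB (u ^ 3) (v 0) g' ∧ IsK (g' - tt * g)) ?_
  refine DS.and (ds_TT (TD.const _) (TD.var 0)) (DS.and ?_ (DS.and ?_ ?_))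
  · refine DS.ex (P := fun g0 v => IsK g0 ∧ BB tt (v 1) g0) ?_
    exact DS.and (ds_IsK (TD.var 0)) (ds_BB (TD.const _) (TD.var 2) (TD.var 0))
  · exact ds_BB (TD.var 0) (TD.var 1) hx.sh.sh
  · refine DS.all (P := fun u v => TT tt u → u ≠ v 0 → ∃ g g', BB u (v 1) g ∧
      BB (u ^ 3) (v 1) g' ∧ IsK (g' - tt * g)) ?_
    refine DS.imp (ds_TT (TD.const _) (TD.var 0)) (DS.imp (DS.not (DS.eq (TD.var 0) (TD.var 1))) ?_)
    refine DS.ex (P := fun g v => ∃ g', BB (v 0) (v 2) g ∧ BB (v 0 ^ 3) (v 2) g' ∧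
      IsK (g' - tt * g)) ?_
    refine DS.ex (P := fun g' v => BB (v 1) (v 3) (v 0) ∧ BB (v 1 ^ 3) (v 3) g' ∧
      IsK (g' - tt * v 0)) ?_
    exact DS.and (ds_BB (TD.var 2) (TD.var 4) (TD.var 1))
      (DS.and (ds_BB ((TD.var 2).pow 3) (TD.var 4) (TD.var 0))
        (ds_IsK ((TD.var 0).sub ((TD.const _).mul (TD.var 1)))))

/-- description of the localization at zero -/
def RR (x : RatFunc K) : Prop :=
  ∃ f h c, Poly f ∧ Poly h ∧ IsK c ∧ c ≠ 0 ∧ x * (c + tt * h) = f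

theorem ds_RR {x : (ℕ → RatFunc K) → RatFunc K} (hx : TD x) : DS (fun v => RR (x v)) := by
  unfold RR
  refine DS.ex (P := fun f v => ∃ h c, Poly f ∧ Poly h ∧ IsK c ∧ c ≠ 0 ∧
    x v * (c + tt * h) = f) ?_
  refine DS.ex (P := fun h v => ∃ c, Poly (v 0) ∧ Poly h ∧ IsK c ∧ c ≠ 0 ∧
    x (fun n => v (n + 1)) * (c + tt * h) = v 0) ?_
  refine DS.ex (P := fun c v => Poly (v 1) ∧ Poly (v 0) ∧ IsK c ∧ c ≠ 0 ∧
    x (fun n => v (n + 1 + 1)) * (c + tt * v 0) = v 1) ?_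
  refine DS.and (ds_Poly (TD.var 2)) (DS.and (ds_Poly (TD.var 1)) (DS.and (ds_IsK (TD.var 0))
    (DS.and (DS.not (DS.eq (TD.var 0) (TD.const 0))) ?_)))
  exact DS.eq (hx.sh.sh.sh.mul ((TD.var 0).add ((TD.const _).mul (TD.var 1)))) (TD.var 2)

end

section
variable {K : Type*} [Field K]

/-- the valuation ring of rational functions regular at zero -/
noncomputable def R0 (K : Type*) [Field K] : ValuationSubring (RatFunc K) where
  carrier := {x | ∃ f g : K[X], g.eval 0 ≠ 0 ∧ x * ι g = ι f}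
  mul_mem' := by
    rintro x y ⟨f, g, hg, h⟩ ⟨f', g', hg', h'⟩
    refine ⟨f * f', g * g', by rw [eval_mul]; exact mul_ne_zero hg hg', ?_⟩
    simp only [ι, map_mul] at *
    rw [← h, ← h']; ring
  one_mem' := ⟨1, 1, by simp, by simp⟩
  add_mem' := by
    rintro x y ⟨f, g, hg, h⟩ ⟨f', g', hg', h'⟩
    refine ⟨f * g' + f' * g, g * g', by rw [eval_mul]; exact mul_ne_zero hg hg', ?_⟩
    simp only [ι, map_mul, map_add] at *
    rw [← h, ← h']; ring
  zero_mem' := ⟨0, 1, by simp, by simp⟩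
  neg_mem' := by
    rintro x ⟨f, g, hg, h⟩
    refine ⟨-f, g, hg, ?_⟩
    simp only [ι, map_neg] at *
    rw [← h]; ring
  mem_or_inv_mem' := by
    intro x
    by_cases hd : x.denom.eval 0 = 0
    · right
      have hx : x ≠ 0 := by
        rintro rfl
        rw [RatFunc.denom_zero] at hd
        simp at hd
      have hn : x.num.eval 0 ≠ 0 := by
        intro hn
        have h1 : (X - C 0 : K[X]) ∣ x.num := dvd_iff_isRoot.2 hn
        have h2 : (X - C 0 : K[X]) ∣ x.denom := dvd_iff_isRoot.2 hd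
        have := (RatFunc.isCoprime_num_denom x).isUnit_of_dvd' h1 h2
        exact not_isUnit_X_sub_C 0 this
      refine ⟨x.denom, x.num, hn, ?_⟩
      have h3 := RatFunc.num_div_denom x
      have h4 : ι x.denom ≠ 0 := RatFunc.algebraMap_ne_zero (RatFunc.denom_ne_zero x)
      have h5 : ι x.num = x * ι x.denom := by
        rw [eq_comm, ← eq_div_iff h4]; exact h3.symm
      rw [h5, ← mul_assoc, inv_mul_cancel₀ hx, one_mul]
    · left
      refine ⟨x.num, x.denom, hd, ?_⟩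
      have h3 := RatFunc.num_div_denom x
      have h4 : ι x.denom ≠ 0 := RatFunc.algebraMap_ne_zero (RatFunc.denom_ne_zero x)
      rw [← eq_div_iff h4]; exact h3.symm

theorem mem_R0 (x : RatFunc K) : x ∈ R0 K ↔ ∃ f g : K[X], g.eval 0 ≠ 0 ∧ x * ι g = ι f := Iff.rfl

theorem R0_ne_top : R0 K ≠ ⊤ := by
  intro h
  have h1 : (ι (X : K[X]))⁻¹ ∈ R0 K := by rw [h]; trivial
  obtain ⟨f, g, hg, e⟩ := (mem_R0 _).1 h1
  have hX : ι (X : K[X]) ≠ 0 := RatFunc.algebraMap_ne_zero X_ne_zero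
  have e2 : g = X * f := by
    apply RatFunc.algebraMap_injective K
    rw [map_mul]
    have : ι g = ι X * ((ι X)⁻¹ * ι g) := by rw [← mul_assoc, mul_inv_cancel₀ hX, one_mul]
    rw [e] at this
    exact this
  apply hg
  rw [e2]; simp

end

theorem RR_iff {K : Type*} [Field K] [IsAlgClosed K] [CharP K 3] (x : RatFunc K) :
    RR x ↔ x ∈ R0 K := by
  rw [mem_R0]
  constructor
  · rintro ⟨f, h, c, hf, hh, hc, hc0, e⟩
    obtain ⟨f, rfl⟩ := (Poly_iff f).1 hf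
    obtain ⟨h, rfl⟩ := (Poly_iff h).1 hh
    obtain ⟨c, rfl⟩ := (IsK_iff c).1 hc
    have hc' : c ≠ 0 := by rintro rfl; exact hc0 κ_zero
    refine ⟨f, C c + X * h, by simpa using hc', ?_⟩
    rw [← e]
    simp only [ι, tt, κ, map_add, map_mul]
  · rintro ⟨f, g, hg, e⟩
    refine ⟨ι f, ι (divX g), κ (g.coeff 0), (Poly_iff _).2 ⟨f, rfl⟩, (Poly_iff _).2 ⟨_, rfl⟩,
      (IsK_iff _).2 ⟨_, rfl⟩, ?_, ?_⟩
    · intro h0
      apply hg
      rw [← coeff_zero_eq_eval_zero]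
      exact κ_inj (h0.trans κ_zero.symm)
    · rw [← e]
      congr 1
      have := congrArg ι (divX_mul_X_add g)
      simp only [ι, tt, κ, map_add, map_mul] at *
      rw [← this]; ring

theorem main3 {K : Type*} [Field K] [IsAlgClosed K] [CharP K 3] [CompatibleRing (RatFunc K)] :
    Set.Definable (Set.univ : Set (RatFunc K)) Language.ring
      {x : Fin 1 → RatFunc K | x 0 ∈ R0 K} := by
  have h : DS (fun v : ℕ → RatFunc K => RR (v 0)) := ds_RR (TD.var 0)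
  have := DS.definable (P := fun x => RR x) h
  have e : {x : Fin 1 → RatFunc K | x 0 ∈ R0 K} = {x : Fin 1 → RatFunc K | RR (x 0)} := by
    ext x
    exact (RR_iff (x 0)).symm
  rw [e]; exact this

end Pool.Agent.Helper180.VR
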